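import Pool.Agent.V1120.CF
import Pool.Agent.V1120.TreeQI

set_option autoImplicit false

namespace Pool.Agent.Results.MP_546eea_al.CFTreeLike

open Pool.Agent.V1120 SimpleGraph

variable {A : Type}

/-- The formal inverse of a word over `A ∪ A⁻¹`. The letter `(a, true)` stands for `a` and the
letter `(a, false)` for `a⁻¹`. -/
def winv (w : List (A × Bool)) : List (A × Bool) := (w.map (fun x => (x.1, !x.2))).reverse

/-- The defining relations of the inverse monoid `Inv⟨A | R⟩` as a quotient of the free monoid on
`A ∪ A⁻¹`: the relations in `R` together with the relations `u u⁻¹ u = u` and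
`u u⁻¹ v v⁻¹ = v v⁻¹ u u⁻¹` for all words `u, v`. -/
inductive InvRel (R : Set (List (A × Bool) × List (A × Bool))) :
    FreeMonoid (A × Bool) → FreeMonoid (A × Bool) → Prop
  | rel (r s : List (A × Bool)) : (r, s) ∈ R → InvRel R (FreeMonoid.ofList r) (FreeMonoid.ofList s)
  | inv (u : List (A × Bool)) :
      InvRel R (FreeMonoid.ofList (u ++ winv u ++ u)) (FreeMonoid.ofList u)
  | comm (u v : List (A × Bool)) :
      InvRel R (FreeMonoid.ofList (u ++ winv u ++ (v ++ winv v)))
        (FreeMonoid.ofList (v ++ winv v ++ (u ++ winv u)))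

/-- The inverse monoid `M = Inv⟨A | R⟩`. -/
abbrev InvMon (R : Set (List (A × Bool) × List (A × Bool))) : Type :=
  (conGen (InvRel R)).Quotient

variable (R : Set (List (A × Bool) × List (A × Bool)))

/-- The natural map `w ↦ wτ` from words to `M`. -/
def tau (w : List (A × Bool)) : InvMon R :=
  ((FreeMonoid.ofList w : FreeMonoid (A × Bool)) : (conGen (InvRel R)).Quotient)

/-- The natural partial order: `x ≤ y` when `x = f y` for an idempotent `f`. -/
def natLe (x y : InvMon R) : Prop := ∃ f : InvMon R, f * f = f ∧ x = f * y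

/-- The language `L(w) = {u : uτ ≥ wτ}` of the Schützenberger automaton of `w`. -/
def schutzLang (w : List (A × Bool)) : Language (A × Bool) :=
  {u | natLe R (tau R w) (tau R u)}

/-- The vertex set of the Schützenberger graph of `w`: the strongly connected component of `wτ` in
the Cayley graph of `M`. -/
def Vert (w : List (A × Bool)) : Type :=
  {x : InvMon R // (∃ u, tau R w * tau R u = x) ∧ ∃ v, x * tau R v = tau R w}

/-- The Schützenberger graph of `w` as an undirected graph: two different vertices are adjacent when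
some letter of `A ∪ A⁻¹` labels an edge between them. -/
def schutzGraph (w : List (A × Bool)) : SimpleGraph (Vert R w) :=
  SimpleGraph.fromRel (fun x y => ∃ a : A × Bool, x.1 * tau R [a] = y.1)

/-- `M` is tree-like: every Schützenberger graph is quasi-isometric to a tree. -/
def TreeLike : Prop :=
  ∀ w : List (A × Bool), ∃ (Q : Type) (H : SimpleGraph Q), H.IsTree ∧
    TreeQI.QI (schutzGraph R w) H

theorem tau_append (u v : List (A × Bool)) : tau R (u ++ v) = tau R u * tau R v := rfl

theorem tau_nil : tau R [] = 1 := rfl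

theorem tau_surj (x : InvMon R) : ∃ w, tau R w = x := by
  induction x using Con.induction_on with
  | H x => exact ⟨FreeMonoid.toList x, rfl⟩

theorem tau_inv (u : List (A × Bool)) : tau R u * tau R (winv u) * tau R u = tau R u := by
  rw [← tau_append, ← tau_append]
  exact (Con.eq _).mpr (ConGen.Rel.of _ _ (InvRel.inv u))

theorem tau_comm (u v : List (A × Bool)) :
    tau R u * tau R (winv u) * (tau R v * tau R (winv v)) =
      tau R v * tau R (winv v) * (tau R u * tau R (winv u)) := by
  rw [← tau_append, ← tau_append, ← tau_append, ← tau_append]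
  exact (Con.eq _).mpr (ConGen.Rel.of _ _ (InvRel.comm u v))

theorem winv_winv (u : List (A × Bool)) : winv (winv u) = u := by
  simp [winv, List.map_reverse, Function.comp_def]

theorem winv_append (u v : List (A × Bool)) : winv (u ++ v) = winv v ++ winv u := by
  simp [winv]

theorem winv_length (u : List (A × Bool)) : (winv u).length = u.length := by
  simp [winv]

/-- an element with `x u v = x` satisfies `x u u⁻¹ = x` -/
theorem F1 (x : InvMon R) (u v : List (A × Bool)) (h : x * tau R u * tau R v = x) :
    x * tau R u * tau R (winv u) = x := by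
  obtain ⟨p, rfl⟩ := tau_surj R x
  set P := tau R p with hP
  set P' := tau R (winv p) with hP'
  set W := tau R (u ++ v) with hW
  set W' := tau R (winv (u ++ v)) with hW'
  set U := tau R u with hU
  set U' := tau R (winv u) with hU'
  set V := tau R v with hV
  set V' := tau R (winv v) with hV'
  have hWU : W = U * V := tau_append R u v
  have hWU' : W' = V' * U' := by rw [hW', winv_append, tau_append]
  have pw : P * W = P := by rw [hWU, ← mul_assoc]; exact h
  have i1 : P * P' * P = P := tau_inv R p
  have i2 : W * W' * W = W := tau_inv R (u ++ v)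
  have i3 : U * U' * U = U := tau_inv R u
  -- f = P' P, g = W W'
  have c1 : P' * P * (W * W') = W * W' * (P' * P) := by
    have := tau_comm R (winv p) (u ++ v)
    rw [winv_winv] at this
    exact this
  have c2 : U * U' * (W * W') = W * W' * (U * U') := tau_comm R u (u ++ v)
  have i1' : P' * P * (P' * P) = P' * P := by
    have := tau_inv R (winv p)
    rw [winv_winv] at this
    calc P' * P * (P' * P) = (P' * P * P') * P := by simp only [mul_assoc]
      _ = P' * P := by rw [this]
  have fw : P' * P * W = P' * P := by rw [mul_assoc, pw]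
  -- g' = f W W'
  have s1 : P' * P * (W * W') * (P' * P) = P' * P * (W * W') := by
    rw [mul_assoc, ← c1, ← mul_assoc, i1']
  have s2 : P' * P * (W * W') * W = P' * P := by
    calc P' * P * (W * W') * W = P' * P * (W * W' * W) := by simp only [mul_assoc]
      _ = P' * P * W := by rw [i2]
      _ = P' * P := fw
  have s3 : P' * P * (W * W') = P' * P := by
    have g2 : P' * P * (W * W') * (P' * P * (W * W')) = P' * P * (W * W') := by
      have : W * W' * (W * W') = W * W' := by
        calc W * W' * (W * W') = (W * W' * W) * W' := by simp only [mul_assoc]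
          _ = W * W' := by rw [i2]
      calc P' * P * (W * W') * (P' * P * (W * W'))
          = (P' * P * (W * W') * (P' * P)) * (W * W') := by simp only [mul_assoc]
        _ = P' * P * (W * W') * (W * W') := by rw [s1]
        _ = P' * P * (W * W' * (W * W')) := by simp only [mul_assoc]
        _ = P' * P * (W * W') := by rw [this]
    calc P' * P * (W * W') = P' * P * (W * W') * (P' * P) := s1.symm
      _ = P' * P * (W * W') * (P' * P * (W * W') * W) := by rw [s2]
      _ = (P' * P * (W * W') * (P' * P * (W * W'))) * W := by simp only [mul_assoc]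
      _ = P' * P * (W * W') * W := by rw [g2]
      _ = P' * P := s2
  have s4 : P * (W * W') = P := by
    calc P * (W * W') = (P * P' * P) * (W * W') := by rw [i1]
      _ = P * (P' * P * (W * W')) := by simp only [mul_assoc]
      _ = P * (P' * P) := by rw [s3]
      _ = P * P' * P := by simp only [mul_assoc]
      _ = P := i1
  have s5 : W * W' * (U * U') = W * W' := by
    rw [← c2]
    calc U * U' * (W * W') = (U * U' * U) * V * (V' * U') := by
          rw [hWU, hWU']; simp only [mul_assoc]
      _ = U * V * (V' * U') := by rw [i3]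
      _ = W * W' := by rw [hWU, hWU']
  calc P * U * U' = P * (W * W') * (U * U') := by rw [s4, mul_assoc]
    _ = P * (W * W' * (U * U')) := by simp only [mul_assoc]
    _ = P * (W * W') := by rw [s5]
    _ = P := s4

/-- idempotents of `M` commute with the elements `u u⁻¹` -/
theorem idem_comm (f : InvMon R) (hf : f * f = f) (u : List (A × Bool)) :
    f * (tau R u * tau R (winv u)) = tau R u * tau R (winv u) * f := by
  obtain ⟨p, rfl⟩ := tau_surj R f
  set P := tau R p with hP
  set P' := tau R (winv p) with hP'
  have i1 : P * P' * P = P := tau_inv R p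
  have i2 : P' * P * P' = P' := by
    have := tau_inv R (winv p)
    rw [winv_winv] at this
    exact this
  have c : P' * P * (P * P') = P * P' * (P' * P) := by
    have := tau_comm R (winv p) p
    rw [winv_winv] at this
    exact this
  have e1 : P' = P * P' * (P' * P) := by
    rw [← c]
    calc P' = P' * P * P' := i2.symm
      _ = P' * (P * P) * P' := by rw [hf]
      _ = P' * P * (P * P') := by simp only [mul_assoc]
  have e2 : P * P' = P' := by
    calc P * P' = P * (P * P' * (P' * P)) := by rw [← e1]
      _ = (P * P) * P' * (P' * P) := by simp only [mul_assoc]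
      _ = P * P' * (P' * P) := by rw [hf]
      _ = P' := e1.symm
  have e3 : P' * P = P' := by
    calc P' * P = (P * P' * (P' * P)) * P := by rw [← e1]
      _ = P * P' * (P' * (P * P)) := by simp only [mul_assoc]
      _ = P * P' * (P' * P) := by rw [hf]
      _ = P' := e1.symm
  have e4 : P = P * P' := by
    calc P = P * P' * P := i1.symm
      _ = P' * P := by rw [e2]
      _ = P' := e3
      _ = P * P' := e2.symm
  rw [e4]
  exact tau_comm R p u

/-- the loop language at the root -/
theorem loop_iff (w u : List (A × Bool)) :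
    u ∈ schutzLang R (w ++ winv w) ↔ tau R (w ++ winv w) * tau R u = tau R (w ++ winv w) := by
  have hidem : tau R (w ++ winv w) * tau R (w ++ winv w) = tau R (w ++ winv w) := by
    rw [tau_append]
    calc tau R w * tau R (winv w) * (tau R w * tau R (winv w))
        = (tau R w * tau R (winv w) * tau R w) * tau R (winv w) := by simp only [mul_assoc]
      _ = _ := by rw [tau_inv]
  constructor
  · rintro ⟨f, hf, he⟩
    have h1 : f * tau R (w ++ winv w) = tau R (w ++ winv w) := by
      rw [he, ← mul_assoc, hf]
    have h2 : tau R (w ++ winv w) * f = tau R (w ++ winv w) := by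
      have := idem_comm R f hf w
      rw [← tau_append] at this
      rw [← this, h1]
    calc tau R (w ++ winv w) * tau R u = tau R (w ++ winv w) * f * tau R u := by rw [h2]
      _ = tau R (w ++ winv w) * (f * tau R u) := by rw [mul_assoc]
      _ = tau R (w ++ winv w) * tau R (w ++ winv w) := by rw [← he]
      _ = _ := hidem
  · intro h
    exact ⟨tau R (w ++ winv w), hidem, h.symm⟩

theorem val_eq (u : List (A × Bool)) : CF.val (fun a => tau R [a]) u = tau R u := by
  induction u with
  | nil => rfl
  | cons a u ih =>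
    have : CF.val (fun a => tau R [a]) (a :: u) = tau R [a] * CF.val (fun a => tau R [a]) u := by
      simp [CF.val]
    rw [this, ih, ← tau_append]
    rfl

theorem co (e : InvMon R) (x x' y : List (A × Bool)) (h : e * tau R (x ++ y) = e)
    (h' : e * tau R (x' ++ y) = e) : e * tau R x = e * tau R x' := by
  rw [tau_append, ← mul_assoc] at h h'
  have h1 := F1 R (e * tau R x) y x (by rw [h])
  have h2 := F1 R (e * tau R x') y x' (by rw [h'])
  rw [← h1, ← h2, h, h']

section graph

variable {R} {w : List (A × Bool)}

theorem mem_of_split (x y : Vert R w) (u1 u2 : List (A × Bool))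
    (h : x.1 * tau R (u1 ++ u2) = y.1) :
    (∃ u, tau R w * tau R u = x.1 * tau R u1) ∧ ∃ v, x.1 * tau R u1 * tau R v = tau R w := by
  obtain ⟨⟨u, hu⟩, -⟩ := x.2
  obtain ⟨-, ⟨v, hv⟩⟩ := y.2
  refine ⟨⟨u ++ u1, ?_⟩, ⟨u2 ++ v, ?_⟩⟩
  · rw [tau_append, ← mul_assoc, hu]
  · rw [tau_append] at h
    rw [tau_append, ← mul_assoc, mul_assoc x.1, h, hv]

theorem back (x y : Vert R w) : ∃ v, x.1 * tau R v = y.1 := by
  obtain ⟨-, ⟨v, hv⟩⟩ := x.2
  obtain ⟨⟨u, hu⟩, -⟩ := y.2
  exact ⟨v ++ u, by rw [tau_append, ← mul_assoc, hv, hu]⟩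

theorem rev (x y : Vert R w) (u : List (A × Bool)) (h : x.1 * tau R u = y.1) :
    y.1 * tau R (winv u) = x.1 := by
  obtain ⟨v, hv⟩ := back y x
  rw [← h]
  exact F1 R x.1 u v (by rw [h, hv])

theorem walk_of_word (u : List (A × Bool)) : ∀ (x y : Vert R w), x.1 * tau R u = y.1 →
    ∃ p : (schutzGraph R w).Walk x y, p.length ≤ u.length := by
  induction u with
  | nil =>
    intro x y h
    rw [tau_nil, mul_one] at h
    have : x = y := Subtype.ext h
    subst this
    exact ⟨Walk.nil, by simp⟩
  | cons a u ih =>
    intro x y h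
    have h' : x.1 * tau R ([a] ++ u) = y.1 := h
    let z : Vert R w := ⟨x.1 * tau R [a], mem_of_split x y [a] u h'⟩
    have hz : x.1 * tau R [a] = z.1 := rfl
    obtain ⟨p, hp⟩ := ih z y (by
      rw [tau_append, ← mul_assoc] at h'
      exact h')
    by_cases hxz : x = z
    · have hp' : ∃ p : (schutzGraph R w).Walk z y, p.length ≤ u.length := ⟨p, hp⟩
      rw [← hxz] at hp'
      obtain ⟨p', hp'⟩ := hp'
      exact ⟨p', by rw [List.length_cons]; omega⟩
    · have hadj : (schutzGraph R w).Adj x z := by
        rw [schutzGraph, SimpleGraph.fromRel_adj]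
        exact ⟨hxz, Or.inl ⟨a, hz⟩⟩
      exact ⟨Walk.cons hadj p, by rw [Walk.length_cons, List.length_cons]; omega⟩

theorem word_of_walk {x y : Vert R w} (p : (schutzGraph R w).Walk x y) :
    ∃ u : List (A × Bool), u.length = p.length ∧ x.1 * tau R u = y.1 ∧
      ∀ u1, u1 <+: u → ∃ z ∈ p.support, x.1 * tau R u1 = z.1 := by
  induction p with
  | nil =>
    refine ⟨[], rfl, by rw [tau_nil, mul_one], ?_⟩
    intro u1 h1
    rw [List.prefix_nil] at h1
    subst h1
    exact ⟨_, Walk.start_mem_support _, by rw [tau_nil, mul_one]⟩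
  | @cons x z y h p ih =>
    obtain ⟨u, hlen, hu, hpre⟩ := ih
    have hstep : ∃ b : A × Bool, x.1 * tau R [b] = z.1 := by
      rw [schutzGraph, SimpleGraph.fromRel_adj] at h
      rcases h.2 with ⟨a, ha⟩ | ⟨a, ha⟩
      · exact ⟨a, ha⟩
      · exact ⟨(a.1, !a.2), rev z x [a] ha⟩
    obtain ⟨b, hb⟩ := hstep
    have hcons : ∀ v : List (A × Bool), x.1 * tau R (b :: v) = z.1 * tau R v := by
      intro v
      have : tau R (b :: v) = tau R [b] * tau R v := tau_append R [b] v
      rw [this, ← mul_assoc, hb]
    refine ⟨b :: u, by rw [List.length_cons, Walk.length_cons, hlen], by rw [hcons, hu], ?_⟩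
    intro u1 h1
    cases u1 with
    | nil => exact ⟨x, Walk.start_mem_support _, by rw [tau_nil, mul_one]⟩
    | cons c u1 =>
      rw [List.cons_prefix_cons] at h1
      obtain ⟨rfl, h2⟩ := h1
      obtain ⟨v, hv, hv'⟩ := hpre u1 h2
      exact ⟨v, by rw [Walk.support_cons]; exact List.mem_cons_of_mem _ hv, by rw [hcons, hv']⟩

theorem dist_le_word (u : List (A × Bool)) (x y : Vert R w) (h : x.1 * tau R u = y.1) :
    (schutzGraph R w).dist x y ≤ u.length := by
  obtain ⟨p, hp⟩ := walk_of_word u x y h
  exact (dist_le p).trans hp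

variable (R w) in
theorem conn : (schutzGraph R w).Connected := by
  have : Nonempty (Vert R w) :=
    ⟨⟨tau R w, ⟨[], by rw [tau_nil, mul_one]⟩, ⟨[], by rw [tau_nil, mul_one]⟩⟩⟩
  refine ⟨fun x y => ?_⟩
  obtain ⟨v, hv⟩ := back x y
  obtain ⟨p, -⟩ := walk_of_word v x y hv
  exact ⟨p⟩

variable (R w) in
def root : Vert R w := ⟨tau R (w ++ winv w), ⟨winv w, rfl⟩, ⟨w, tau_inv R w⟩⟩

variable (R w) in
theorem main (h : (schutzLang R (w ++ winv w)).IsContextFree) :
    ∃ (Q : Type) (H : SimpleGraph Q), H.IsTree ∧ TreeQI.QI (schutzGraph R w) H := by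
  obtain ⟨g, hg⟩ := h
  have hL : ∀ u, u ∈ g.language ↔ (root R w).1 * CF.val (fun a => tau R [a]) u = (root R w).1 := by
    intro u
    rw [hg, loop_iff, val_eq]
    rfl
  have hco : ∀ x x' y : List (A × Bool),
      (root R w).1 * CF.val (fun a => tau R [a]) (x ++ y) = (root R w).1 →
      (root R w).1 * CF.val (fun a => tau R [a]) (x' ++ y) = (root R w).1 →
      (root R w).1 * CF.val (fun a => tau R [a]) x = (root R w).1 * CF.val (fun a => tau R [a]) x' := by
    intro x x' y h1 h2
    rw [val_eq] at *
    rw [val_eq]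
    exact co R _ x x' y h1 h2
  apply TreeQI.main (schutzGraph R w) (conn R w) (root R w) (3 * (CF.m g * CF.K g))
  intro x y hxy hout
  obtain ⟨p, hp⟩ := hout
  obtain ⟨q, hq⟩ := (conn R w).exists_walk_length_eq_dist (root R w) x
  obtain ⟨q', hq'⟩ := (conn R w).exists_walk_length_eq_dist (root R w) y
  obtain ⟨π, -, hπ, hπpre⟩ := word_of_walk p
  obtain ⟨α, hαlen, hα, -⟩ := word_of_walk q
  obtain ⟨β, hβlen, hβ, -⟩ := word_of_walk q'
  have hβ' := rev _ _ _ hβ
  have hloop : (root R w).1 * CF.val (fun a => tau R [a]) (α ++ (π ++ winv β)) = (root R w).1 := by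
    rw [val_eq, tau_append, tau_append, ← mul_assoc, hα, ← mul_assoc, hπ, hβ']
  obtain ⟨α1, π1, γ1, ⟨α2, rfl⟩, hpi, ⟨γ2, hγ⟩, n1, n2, n3⟩ :=
    CF.tri (g := g) (fun a => tau R [a]) (root R w).1 hco hL α π (winv β) hloop
  set κ := CF.m g * CF.K g with hκ
  simp only [val_eq] at n1 n2 n3
  -- the three vertices
  let a : Vert R w := ⟨(root R w).1 * tau R α1, mem_of_split _ _ _ _ hα⟩
  obtain ⟨b, hbsupp, hb⟩ := hπpre π1 hpi
  have hγ' : y.1 * tau R (γ1 ++ γ2) = (root R w).1 := by rw [hγ]; exact hβ'
  let c : Vert R w := ⟨y.1 * tau R γ1, mem_of_split _ _ _ _ hγ'⟩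
  have eb : (root R w).1 * tau R (α1 ++ α2 ++ π1) = b.1 := by
    rw [tau_append, ← mul_assoc, hα, hb]
  have ec : (root R w).1 * tau R (α1 ++ α2 ++ π ++ γ1) = c.1 := by
    rw [tau_append, tau_append, ← mul_assoc, ← mul_assoc, hα, hπ]
  rw [eb] at n1 n2
  rw [ec] at n2 n3
  obtain ⟨w1, l1, v1⟩ := n1
  obtain ⟨w2, l2, v2⟩ := n2
  obtain ⟨w3, l3, v3⟩ := n3
  rw [val_eq] at v1 v2 v3
  have d1 := dist_le_word w1 a b v1
  have d2 := dist_le_word w2 b c v2
  have d3 := dist_le_word w3 a c v3
  have d4 := dist_le_word α1 (root R w) a rfl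
  have d5 := dist_le_word α2 a x (by
    rw [tau_append, ← mul_assoc] at hα
    exact hα)
  have d6 := dist_le_word γ1 y c rfl
  have d7 := dist_le_word γ2 c (root R w) (by
    rw [tau_append, ← mul_assoc] at hγ'
    exact hγ')
  have hlen1 : α1.length + α2.length = (schutzGraph R w).dist (root R w) x := by
    rw [← List.length_append, hαlen, hq]
  have hlen2 : γ1.length + γ2.length = (schutzGraph R w).dist (root R w) y := by
    rw [← List.length_append, hγ, winv_length, hβlen, hq']
  have hb' := hp b hbsupp
  have tr := (conn R w).dist_triangle (u := root R w) (v := a) (w := b)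
  have tr2 := (conn R w).dist_triangle (u := root R w) (v := c) (w := b)
  have tr3 := (conn R w).dist_triangle (u := x) (v := a) (w := y)
  have tr4 := (conn R w).dist_triangle (u := a) (v := c) (w := y)
  rw [dist_comm (u := x) (v := a)] at tr3
  rw [dist_comm (u := c) (v := y)] at tr4
  rw [dist_comm (u := c) (v := b)] at tr2
  rw [dist_comm (u := c)] at d7
  omega

end graph

/-- The answer to Q1 is yes, with no finiteness assumption on the presentation: if all the
languages `L(w)` are context-free, then `M = Inv⟨A | R⟩` is tree-like. -/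
theorem result (A : Type) (R : Set (List (A × Bool) × List (A × Bool)))
    (h : ∀ w : List (A × Bool), (schutzLang R w).IsContextFree) : TreeLike R :=
  fun w => main R w (h (w ++ winv w))

end Pool.Agent.Results.MP_546eea_al.CFTreeLike
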